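import Pool.Agent.W192.CY.Stn

set_option autoImplicit false

/-!
# CYG-DUALP: the dual part, general modulus (after the file of helper756 for prime moduli)
-/

namespace Pool.Agent.W928.CY

open Pool.Agent.W192.CY

theorem conj_unit {q : ℕ} [NeZero q] (χ : DirichletCharacter ℂ q) (u : (ZMod q)ˣ) :
    (starRingEnd ℂ) (χ (u : ZMod q)) = χ ((u⁻¹ : (ZMod q)ˣ) : ZMod q) := by
  have h1 : (starRingEnd ℂ) (χ (u : ZMod q)) = χ⁻¹ (u : ZMod q) := by
    rw [← MulChar.star_eq_inv]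
    rfl
  rw [h1, MulChar.inv_apply, Ring.inverse_unit]

theorem key (h2 : G_MOB) {η Ck : ℝ} (hCk : 0 < Ck) (q : ℕ) [NeZero q]
    (χ₀ : DirichletCharacter ℂ q)
    (h3 : ∀ e : ℕ, e ∣ orderOf χ₀ → ∀ y : (ZMod q)ˣ,
      ‖∑ χ ∈ Cg q χ₀ e, χ (y : ZMod q) * gaussSum χ (ZMod.stdAddChar (N := q)) ^ 2‖ ≤
        Ck * (q : ℝ) ^ (3 / 2 + η)) (b N n : ℕ) :
    ‖∑ χ ∈ Eg q χ₀, χ (b : ZMod q) * (χ (N : ZMod q) *
      gaussSum χ (ZMod.stdAddChar (N := q)) ^ 2 / q * (starRingEnd ℂ) (χ (n : ZMod q)))‖ ≤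
      Ck * (orderOf χ₀).divisors.card * (q : ℝ) ^ (1 / 2 + η) := by
  have hq : (0 : ℝ) < q := by exact_mod_cast Nat.pos_of_ne_zero (NeZero.ne q)
  have hnn : (0 : ℝ) ≤ Ck * (orderOf χ₀).divisors.card * (q : ℝ) ^ (1 / 2 + η) := by positivity
  by_cases hu : IsUnit (b : ZMod q) ∧ IsUnit (N : ZMod q) ∧ IsUnit (n : ZMod q)
  · obtain ⟨⟨ub, hub⟩, ⟨uN, huN⟩, ⟨un, hun⟩⟩ := hu
    set y : (ZMod q)ˣ := ub * uN * un⁻¹ with hy
    have e1 : ∀ χ : DirichletCharacter ℂ q, χ (b : ZMod q) * (χ (N : ZMod q) *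
        gaussSum χ (ZMod.stdAddChar (N := q)) ^ 2 / q * (starRingEnd ℂ) (χ (n : ZMod q))) =
        (χ (y : ZMod q) * gaussSum χ (ZMod.stdAddChar (N := q)) ^ 2) * (q : ℂ)⁻¹ := by
      intro χ
      rw [← hub, ← huN, ← hun, conj_unit, hy, Units.val_mul, Units.val_mul, map_mul, map_mul]
      ring
    rw [Finset.sum_congr rfl fun χ _ => e1 χ, ← Finset.sum_mul, norm_mul, norm_inv,
      Complex.norm_natCast]
    rw [(h2 q χ₀).2 (fun χ => χ (y : ZMod q) * gaussSum χ (ZMod.stdAddChar (N := q)) ^ 2)]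
    have e3 : ‖∑ e ∈ (orderOf χ₀).divisors,
        ((ArithmeticFunction.moebius (orderOf χ₀ / e) : ℤ) : ℂ) *
        ∑ χ ∈ Cg q χ₀ e, χ (y : ZMod q) * gaussSum χ (ZMod.stdAddChar (N := q)) ^ 2‖ ≤
        ∑ e ∈ (orderOf χ₀).divisors, Ck * (q : ℝ) ^ (3 / 2 + η) := by
      refine (norm_sum_le _ _).trans (Finset.sum_le_sum fun e he => ?_)
      rw [norm_mul]
      have h4 : ‖((ArithmeticFunction.moebius (orderOf χ₀ / e) : ℤ) : ℂ)‖ ≤ 1 := by
        rw [Complex.norm_intCast]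
        exact_mod_cast ArithmeticFunction.abs_moebius_le_one
      have h5 := h3 e (Nat.dvd_of_mem_divisors he) y
      calc _ ≤ 1 * (Ck * (q : ℝ) ^ (3 / 2 + η)) := mul_le_mul h4 h5 (norm_nonneg _) zero_le_one
        _ = _ := one_mul _
    rw [Finset.sum_const, nsmul_eq_mul] at e3
    calc _ ≤ ((orderOf χ₀).divisors.card * (Ck * (q : ℝ) ^ (3 / 2 + η))) * (q : ℝ)⁻¹ :=
          mul_le_mul_of_nonneg_right e3 (by positivity)
      _ = Ck * (orderOf χ₀).divisors.card * ((q : ℝ) ^ (3 / 2 + η) * (q : ℝ)⁻¹) := by ring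
      _ = _ := by
          rw [← Real.rpow_neg_one (q : ℝ), ← Real.rpow_add hq]
          congr 2
          ring
  · have : ∑ χ ∈ Eg q χ₀, χ (b : ZMod q) * (χ (N : ZMod q) *
      gaussSum χ (ZMod.stdAddChar (N := q)) ^ 2 / q * (starRingEnd ℂ) (χ (n : ZMod q))) = 0 := by
      refine Finset.sum_eq_zero fun χ _ => ?_
      by_cases h1 : IsUnit (b : ZMod q)
      · by_cases h4 : IsUnit (N : ZMod q)
        · have h5 : ¬ IsUnit (n : ZMod q) := fun h5 => hu ⟨h1, h4, h5⟩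
          rw [MulChar.map_nonunit χ h5, map_zero]
          ring
        · rw [MulChar.map_nonunit χ h4]
          ring
      · rw [MulChar.map_nonunit χ h1]
        ring
    rw [this, norm_zero]
    exact hnn

theorem exp_le {a x : ℝ} (ha : 0 ≤ a) (ha' : a ≤ 1) (hx : 0 < x) : Real.exp (-x) ≤ x ^ (-a) := by
  rw [Real.exp_neg, Real.rpow_neg hx.le]
  apply inv_anti₀ (Real.rpow_pos_of_pos hx _)
  have h1 : x ^ a ≤ 1 + x := by
    rcases le_total x 1 with h | h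
    · calc x ^ a ≤ 1 := Real.rpow_le_one hx.le h ha
        _ ≤ _ := by linarith
    · calc x ^ a ≤ x ^ (1 : ℝ) := Real.rpow_le_rpow_of_exponent_le h ha'
        _ = x := Real.rpow_one x
        _ ≤ _ := by linarith
  have h2 := Real.add_one_le_exp x
  linarith

/-- the bound for the terms of the series -/
theorem term {c m : ℕ → ℝ} (hc : Inv c m) {η C1 : ℝ} (hη : 0 < η) (hη' : η < 1 / 8)
    (hC : ∀ n : ℕ, 1 ≤ n → (n.divisors.card : ℝ) ≤ C1 * (n : ℝ) ^ η) (hC1 : 0 < C1)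
    {Z : ℝ} (hZ : 0 < Z) (n : ℕ) :
    |c n / n * Real.exp (-(n / Z))| ≤ C1 * Z ^ (1 / 2 + 2 * η) * (n : ℝ) ^ (-(1 + η)) := by
  rcases Nat.eq_zero_or_pos n with rfl | hn
  · rw [hc.zero]
    simp only [CharP.cast_eq_zero, zero_div, neg_zero, Real.exp_zero, mul_one, abs_zero]
    rw [Real.zero_rpow (by linarith)]
    simp
  · have hn0 : (0 : ℝ) < n := by exact_mod_cast hn
    have h1 := hc.cle n hn
    have h2 := hC n hn
    have h3 : |c n / n| ≤ C1 * (n : ℝ) ^ η * (n : ℝ) ^ (-(1 / 2) : ℝ) := by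
      rw [abs_div, abs_of_pos hn0, div_le_iff₀ hn0]
      refine h1.trans ?_
      have e : C1 * (n : ℝ) ^ η * (n : ℝ) ^ (-(1 / 2) : ℝ) * n = C1 * (n : ℝ) ^ η * Real.sqrt n := by
        rw [mul_assoc (C1 * (n : ℝ) ^ η), Real.sqrt_eq_rpow]
        congr 1
        nth_rewrite 2 [← Real.rpow_one (n : ℝ)]
        rw [← Real.rpow_add hn0]
        norm_num
      rw [e]
      exact mul_le_mul_of_nonneg_right h2 (Real.sqrt_nonneg _)
    have h4 : Real.exp (-(n / Z)) ≤ (n : ℝ) ^ (-(1 / 2 + 2 * η)) * Z ^ (1 / 2 + 2 * η) := by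
      refine (exp_le (a := 1 / 2 + 2 * η) (by linarith) (by linarith) (div_pos hn0 hZ)).trans ?_
      rw [Real.div_rpow hn0.le hZ.le, Real.rpow_neg hZ.le, div_inv_eq_mul]
    rw [abs_mul, abs_of_pos (Real.exp_pos _)]
    calc _ ≤ (C1 * (n : ℝ) ^ η * (n : ℝ) ^ (-(1 / 2) : ℝ)) *
          ((n : ℝ) ^ (-(1 / 2 + 2 * η)) * Z ^ (1 / 2 + 2 * η)) :=
          mul_le_mul h3 h4 (Real.exp_pos _).le (by positivity)
      _ = C1 * Z ^ (1 / 2 + 2 * η) * ((n : ℝ) ^ η * (n : ℝ) ^ (-(1 / 2) : ℝ) *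
          (n : ℝ) ^ (-(1 / 2 + 2 * η))) := by ring
      _ = _ := by
          rw [← Real.rpow_add hn0, ← Real.rpow_add hn0]
          congr 2
          ring

theorem dualp (h1 : S_DIV) (h2 : G_MOB) (h3' : G_KLOO) : G_DUALP := by
  intro N hN c m hc ε hε hε'
  set η : ℝ := ε / 8 with hηd
  have hη : 0 < η := by rw [hηd]; linarith
  have hη' : η < 1 / 8 := by rw [hηd]; linarith
  obtain ⟨C1, hC1, hC, -⟩ := h1 η hη
  obtain ⟨Ck, hCk, h3⟩ := h3' η hη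
  set a : ℝ := 1 / 2 + 2 * η with had
  have hsum : Summable (fun n : ℕ => (n : ℝ) ^ (-(1 + η))) :=
    Real.summable_nat_rpow.2 (by linarith)
  set S : ℝ := ∑' n : ℕ, (n : ℝ) ^ (-(1 + η)) with hS
  have hS0 : 0 ≤ S := tsum_nonneg fun n => Real.rpow_nonneg (Nat.cast_nonneg n) _
  have hNr : (1 : ℝ) ≤ N := by exact_mod_cast hN
  refine ⟨ε / 8, Ck * C1 ^ 3 * (N : ℝ) ^ a * S + 1, 0, by linarith, by positivity, ?_⟩
  intro q _ hq _ χ₀ hqd
  set d := orderOf χ₀ with hdd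
  have hqpos : 0 < q := Nat.pos_of_ne_zero (NeZero.ne q)
  have hq0 : (0 : ℝ) < q := by exact_mod_cast hqpos
  have hq1 : (1 : ℝ) ≤ q := by exact_mod_cast hqpos
  set Z : ℝ := N * Real.sqrt q / (4 * Real.pi ^ 2) with hZd
  have hZ : 0 < Z := by rw [hZd]; positivity
  have hpi : (1 : ℝ) ≤ 4 * Real.pi ^ 2 := by nlinarith [Real.pi_gt_three]
  have hZle : Z ≤ N * Real.sqrt q := by
    rw [hZd]; exact div_le_self (by positivity) hpi
  have hZa : Z ^ a ≤ (N : ℝ) ^ a * (q : ℝ) ^ (1 / 4 + η) := by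
    refine (Real.rpow_le_rpow hZ.le hZle (by rw [had]; linarith)).trans (le_of_eq ?_)
    rw [Real.mul_rpow (by positivity) (Real.sqrt_nonneg _), Real.sqrt_eq_rpow,
      ← Real.rpow_mul hq0.le]
    congr 2
    rw [had]; ring
  set τ : ℝ := (d.divisors.card : ℝ) with hτ
  have hd1 : 1 ≤ d := orderOf_pos χ₀
  have hdq : (d : ℝ) ≤ q := by
    obtain ⟨φ⟩ := DirichletCharacter.mulEquiv_units ℂ q
    have h8 : Nat.card (DirichletCharacter ℂ q) = q.totient := by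
      rw [Nat.card_congr φ.toEquiv, Nat.card_eq_fintype_card, ZMod.card_units_eq_totient]
    have h9 : d ∣ q.totient := by
      rw [← h8]
      exact orderOf_dvd_natCard χ₀
    exact_mod_cast (Nat.le_of_dvd (Nat.totient_pos.2 hqpos) h9).trans (Nat.totient_le q)
  have hτle : τ ≤ C1 * (q : ℝ) ^ η := by
    refine (hC d hd1).trans (mul_le_mul_of_nonneg_left ?_ hC1.le)
    exact Real.rpow_le_rpow (by positivity) hdq hη.le
  -- the inner sums
  have hin : ∀ b : ℕ, ‖∑ χ ∈ Eg q χ₀,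
      χ (b : ZMod q) * (χ (N : ZMod q) * gaussSum χ (ZMod.stdAddChar (N := q)) ^ 2 / q *
        ∑' n : ℕ, (starRingEnd ℂ) (χ (n : ZMod q)) * (c n : ℂ) / n *
        (Real.exp (-(n / Z)) : ℂ))‖ ≤ Ck * τ * (q : ℝ) ^ (1 / 2 + η) * (C1 * Z ^ a) * S := by
    intro b
    set an : ℕ → ℂ := fun n => ((c n / n * Real.exp (-(n / Z)) : ℝ) : ℂ) with han
    have hanb : ∀ n, ‖an n‖ ≤ C1 * Z ^ a * (n : ℝ) ^ (-(1 + η)) := by
      intro n
      rw [han]
      show ‖((c n / n * Real.exp (-(n / Z)) : ℝ) : ℂ)‖ ≤ _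
      rw [Complex.norm_real, Real.norm_eq_abs]
      exact term hc hη hη' hC hC1 hZ n
    have hans : Summable (fun n => ‖an n‖) :=
      Summable.of_nonneg_of_le (fun n => norm_nonneg _) hanb (hsum.mul_left _)
    have e1 : ∀ χ : DirichletCharacter ℂ q, ∀ n : ℕ,
        (starRingEnd ℂ) (χ (n : ZMod q)) * (c n : ℂ) / n * (Real.exp (-(n / Z)) : ℂ) =
        (starRingEnd ℂ) (χ (n : ZMod q)) * an n := by
      intro χ n
      rw [han]
      push_cast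
      ring
    have hs : ∀ χ : DirichletCharacter ℂ q,
        Summable (fun n : ℕ => (starRingEnd ℂ) (χ (n : ZMod q)) * an n) := by
      intro χ
      refine Summable.of_norm_bounded hans fun n => ?_
      rw [norm_mul, RCLike.norm_conj]
      exact mul_le_of_le_one_left (norm_nonneg _) (DirichletCharacter.norm_le_one χ _)
    have e2 : ∑ χ ∈ Eg q χ₀, χ (b : ZMod q) * (χ (N : ZMod q) *
        gaussSum χ (ZMod.stdAddChar (N := q)) ^ 2 / q *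
        ∑' n : ℕ, (starRingEnd ℂ) (χ (n : ZMod q)) * (c n : ℂ) / n *
        (Real.exp (-(n / Z)) : ℂ)) =
        ∑' n : ℕ, ∑ χ ∈ Eg q χ₀, χ (b : ZMod q) * (χ (N : ZMod q) *
        gaussSum χ (ZMod.stdAddChar (N := q)) ^ 2 / q *
          ((starRingEnd ℂ) (χ (n : ZMod q)) * an n)) := by
      rw [Summable.tsum_finsetSum fun χ _ => ((hs χ).mul_left _).mul_left _]
      refine Finset.sum_congr rfl fun χ _ => ?_
      rw [tsum_congr (e1 χ), tsum_mul_left, tsum_mul_left]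
    rw [e2]
    refine tsum_of_norm_bounded ((hsum.hasSum).mul_left (Ck * τ * (q : ℝ) ^ (1 / 2 + η) * (C1 * Z ^ a))) ?_
    intro n
    have e3 : ∑ χ ∈ Eg q χ₀, χ (b : ZMod q) * (χ (N : ZMod q) *
        gaussSum χ (ZMod.stdAddChar (N := q)) ^ 2 / q *
          ((starRingEnd ℂ) (χ (n : ZMod q)) * an n)) =
        (∑ χ ∈ Eg q χ₀, χ (b : ZMod q) * (χ (N : ZMod q) *
        gaussSum χ (ZMod.stdAddChar (N := q)) ^ 2 / q *
          (starRingEnd ℂ) (χ (n : ZMod q)))) * an n := by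
      rw [Finset.sum_mul]
      refine Finset.sum_congr rfl fun χ _ => ?_
      ring
    rw [e3, norm_mul]
    calc _ ≤ (Ck * τ * (q : ℝ) ^ (1 / 2 + η)) * (C1 * Z ^ a * (n : ℝ) ^ (-(1 + η))) :=
          mul_le_mul (key h2 hCk q χ₀ (h3 q χ₀) b N n) (hanb n) (norm_nonneg _) (by positivity)
      _ = _ := by ring
  have hP : 0 ≤ Ck * τ * (q : ℝ) ^ (1 / 2 + η) * (C1 * Z ^ a) * S := by positivity
  -- the outer sum
  have hout : ∀ b ∈ Finset.Icc 1 ⌊(q : ℝ) ^ (ε / 2)⌋₊, ‖((m b / b : ℝ) : ℂ) * ∑ χ ∈ Eg q χ₀,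
      χ (b : ZMod q) * (χ (N : ZMod q) * gaussSum χ (ZMod.stdAddChar (N := q)) ^ 2 / q *
        ∑' n : ℕ, (starRingEnd ℂ) (χ (n : ZMod q)) * (c n : ℂ) / n *
        (Real.exp (-(n / Z)) : ℂ))‖ ≤ C1 * (Ck * τ * (q : ℝ) ^ (1 / 2 + η) * (C1 * Z ^ a) * S) := by
    intro b hb
    rw [Finset.mem_Icc] at hb
    have hb0 : (0 : ℝ) < b := by exact_mod_cast hb.1
    have hb1 : (1 : ℝ) ≤ b := by exact_mod_cast hb.1
    rw [norm_mul, Complex.norm_real, Real.norm_eq_abs]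
    refine mul_le_mul ?_ (hin b) (norm_nonneg _) hC1.le
    rw [abs_div, abs_of_pos hb0, div_le_iff₀ hb0]
    refine (hc.mle b hb.1).trans ?_
    calc (b.divisors.card : ℝ) * Real.sqrt b ≤ C1 * (b : ℝ) ^ η * (b : ℝ) ^ (1 / 2 : ℝ) := by
          rw [← Real.sqrt_eq_rpow]
          exact mul_le_mul_of_nonneg_right (hC b hb.1) (Real.sqrt_nonneg _)
      _ = C1 * (b : ℝ) ^ (η + 1 / 2) := by rw [mul_assoc, ← Real.rpow_add hb0]
      _ ≤ C1 * (b : ℝ) ^ (1 : ℝ) := mul_le_mul_of_nonneg_left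
          (Real.rpow_le_rpow_of_exponent_le hb1 (by linarith)) hC1.le
      _ = C1 * b := by rw [Real.rpow_one]
  refine (norm_sum_le _ _).trans ((Finset.sum_le_sum hout).trans ?_)
  rw [Finset.sum_const, nsmul_eq_mul, Nat.card_Icc, Nat.add_sub_cancel]
  have hfl : (⌊(q : ℝ) ^ (ε / 2)⌋₊ : ℝ) ≤ (q : ℝ) ^ (ε / 2) :=
    Nat.floor_le (Real.rpow_nonneg hq0.le _)
  calc (⌊(q : ℝ) ^ (ε / 2)⌋₊ : ℝ) * (C1 * (Ck * τ * (q : ℝ) ^ (1 / 2 + η) * (C1 * Z ^ a) * S))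
      ≤ (q : ℝ) ^ (ε / 2) * (C1 * (Ck * (C1 * (q : ℝ) ^ η) * (q : ℝ) ^ (1 / 2 + η) *
        (C1 * ((N : ℝ) ^ a * (q : ℝ) ^ (1 / 4 + η))) * S)) := by
        gcongr
    _ = Ck * C1 ^ 3 * (N : ℝ) ^ a * S * ((q : ℝ) ^ (ε / 2) * (q : ℝ) ^ η * (q : ℝ) ^ (1 / 2 + η) *
        (q : ℝ) ^ (1 / 4 + η)) := by
        ring
    _ = Ck * C1 ^ 3 * (N : ℝ) ^ a * S * ((q : ℝ) ^ (3 / 4 + ε) * (q : ℝ) ^ (-(ε / 8))) := by
        rw [← Real.rpow_add hq0, ← Real.rpow_add hq0, ← Real.rpow_add hq0, ← Real.rpow_add hq0]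
        congr 2
        rw [hηd]; ring
    _ ≤ Ck * C1 ^ 3 * (N : ℝ) ^ a * S * (d * (q : ℝ) ^ (-(ε / 8))) := by
        gcongr
    _ ≤ (Ck * C1 ^ 3 * (N : ℝ) ^ a * S + 1) * (d * (q : ℝ) ^ (-(ε / 8))) := by
        gcongr
        linarith
    _ = _ := by ring

end Pool.Agent.W928.CY
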